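import Pool.Agent.V11199.TF.Top

/-! Kernel check of the certificate. -/

set_option maxRecDepth 100000

namespace Pool.Agent.V11199.TF

theorem c64 : s64.all M 20 = true := by decide +kernel
theorem c65 : s65.all M 20 = true := by decide +kernel
theorem c66 : s66.all M 20 = true := by decide +kernel
theorem c67 : s67.all M 20 = true := by decide +kernel
theorem c68 : s68.all M 20 = true := by decide +kernel
theorem c69 : s69.all M 20 = true := by decide +kernel
theorem c70 : s70.all M 20 = true := by decide +kernel
theorem c71 : s71.all M 20 = true := by decide +kernel
theorem c72 : s72.all M 20 = true := by decide +kernel
theorem c73 : s73.all M 20 = true := by decide +kernel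
theorem c74 : s74.all M 20 = true := by decide +kernel
theorem c75 : s75.all M 20 = true := by decide +kernel
theorem c76 : s76.all M 20 = true := by decide +kernel
theorem c77 : s77.all M 20 = true := by decide +kernel
theorem c78 : s78.all M 20 = true := by decide +kernel
theorem c79 : s79.all M 20 = true := by decide +kernel
theorem c80 : s80.all M 20 = true := by decide +kernel
theorem c81 : s81.all M 20 = true := by decide +kernel
theorem c82 : s82.all M 20 = true := by decide +kernel
theorem c83 : s83.all M 20 = true := by decide +kernel
theorem c84 : s84.all M 20 = true := by decide +kernel
theorem c85 : s85.all M 20 = true := by decide +kernel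
theorem c86 : s86.all M 20 = true := by decide +kernel
theorem c87 : s87.all M 20 = true := by decide +kernel
theorem c88 : s88.all M 20 = true := by decide +kernel
theorem c89 : s89.all M 20 = true := by decide +kernel
theorem c90 : s90.all M 20 = true := by decide +kernel
theorem c91 : s91.all M 20 = true := by decide +kernel
theorem c92 : s92.all M 20 = true := by decide +kernel
theorem c93 : s93.all M 20 = true := by decide +kernel
theorem c94 : s94.all M 20 = true := by decide +kernel
theorem c95 : s95.all M 20 = true := by decide +kernel
theorem c96 : s96.all M 20 = true := by decide +kernel
theorem c97 : s97.all M 20 = true := by decide +kernel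
theorem c98 : s98.all M 20 = true := by decide +kernel
theorem c99 : s99.all M 20 = true := by decide +kernel
theorem c100 : s100.all M 20 = true := by decide +kernel
theorem c101 : s101.all M 20 = true := by decide +kernel
theorem c102 : s102.all M 20 = true := by decide +kernel
theorem c103 : s103.all M 20 = true := by decide +kernel
theorem c104 : s104.all M 20 = true := by decide +kernel
theorem c105 : s105.all M 20 = true := by decide +kernel
theorem c106 : s106.all M 20 = true := by decide +kernel
theorem c107 : s107.all M 20 = true := by decide +kernel
theorem c108 : s108.all M 20 = true := by decide +kernel
theorem c109 : s109.all M 20 = true := by decide +kernel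
theorem c110 : s110.all M 20 = true := by decide +kernel
theorem c111 : s111.all M 20 = true := by decide +kernel
theorem c112 : s112.all M 20 = true := by decide +kernel
theorem c113 : s113.all M 20 = true := by decide +kernel
theorem c114 : s114.all M 20 = true := by decide +kernel
theorem c115 : s115.all M 20 = true := by decide +kernel
theorem c116 : s116.all M 20 = true := by decide +kernel
theorem c117 : s117.all M 20 = true := by decide +kernel
theorem c118 : s118.all M 20 = true := by decide +kernel
theorem c119 : s119.all M 20 = true := by decide +kernel
theorem c120 : s120.all M 20 = true := by decide +kernel
theorem c121 : s121.all M 20 = true := by decide +kernel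
theorem c122 : s122.all M 20 = true := by decide +kernel
theorem c123 : s123.all M 20 = true := by decide +kernel
theorem c124 : s124.all M 20 = true := by decide +kernel
theorem c125 : s125.all M 20 = true := by decide +kernel
theorem c126 : s126.all M 20 = true := by decide +kernel
theorem c127 : s127.all M 20 = true := by decide +kernel

end Pool.Agent.V11199.TF
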