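import Pool.Agent.V11199.TF.Chk0
import Pool.Agent.V11199.TF.Chk1

/-! The whole certificate is correct. -/

set_option maxRecDepth 100000

namespace Pool.Agent.V11199.TF

theorem all_node {mem : ℕ → Bool} {n : ℕ} {l r : Tree} {k rep : ℕ}
    (h : checkR mem n (k % 1048576) (k / 1048576 % 1048576) (k / 1099511627776) n rep = true)
    (hl : l.all mem n = true) (hr : r.all mem n = true) :
    (Tree.node l k rep r).all mem n = true := by
  have e : (Tree.node l k rep r).all mem n =
      cond (checkR mem n (k % 1048576) (k / 1048576 % 1048576) (k / 1099511627776) n rep)
        (cond (l.all mem n) (r.all mem n) false) false := rfl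
  rw [e, h, hl, hr]
  rfl

theorem all_top : top.all M 20 = true :=
  (all_node (by decide +kernel)
  (all_node (by decide +kernel)
  (all_node (by decide +kernel)
  (all_node (by decide +kernel)
  (all_node (by decide +kernel)
  (all_node (by decide +kernel)
  (all_node (by decide +kernel)
  c0
  c1)
  (all_node (by decide +kernel)
  c2
  c3))
  (all_node (by decide +kernel)
  (all_node (by decide +kernel)
  c4
  c5)
  (all_node (by decide +kernel)
  c6
  c7)))
  (all_node (by decide +kernel)
  (all_node (by decide +kernel)
  (all_node (by decide +kernel)
  c8
  c9)
  (all_node (by decide +kernel)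
  c10
  c11))
  (all_node (by decide +kernel)
  (all_node (by decide +kernel)
  c12
  c13)
  (all_node (by decide +kernel)
  c14
  c15))))
  (all_node (by decide +kernel)
  (all_node (by decide +kernel)
  (all_node (by decide +kernel)
  (all_node (by decide +kernel)
  c16
  c17)
  (all_node (by decide +kernel)
  c18
  c19))
  (all_node (by decide +kernel)
  (all_node (by decide +kernel)
  c20
  c21)
  (all_node (by decide +kernel)
  c22
  c23)))
  (all_node (by decide +kernel)
  (all_node (by decide +kernel)
  (all_node (by decide +kernel)
  c24
  c25)
  (all_node (by decide +kernel)
  c26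
  c27))
  (all_node (by decide +kernel)
  (all_node (by decide +kernel)
  c28
  c29)
  (all_node (by decide +kernel)
  c30
  c31)))))
  (all_node (by decide +kernel)
  (all_node (by decide +kernel)
  (all_node (by decide +kernel)
  (all_node (by decide +kernel)
  (all_node (by decide +kernel)
  c32
  c33)
  (all_node (by decide +kernel)
  c34
  c35))
  (all_node (by decide +kernel)
  (all_node (by decide +kernel)
  c36
  c37)
  (all_node (by decide +kernel)
  c38
  c39)))
  (all_node (by decide +kernel)
  (all_node (by decide +kernel)
  (all_node (by decide +kernel)
  c40
  c41)
  (all_node (by decide +kernel)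
  c42
  c43))
  (all_node (by decide +kernel)
  (all_node (by decide +kernel)
  c44
  c45)
  (all_node (by decide +kernel)
  c46
  c47))))
  (all_node (by decide +kernel)
  (all_node (by decide +kernel)
  (all_node (by decide +kernel)
  (all_node (by decide +kernel)
  c48
  c49)
  (all_node (by decide +kernel)
  c50
  c51))
  (all_node (by decide +kernel)
  (all_node (by decide +kernel)
  c52
  c53)
  (all_node (by decide +kernel)
  c54
  c55)))
  (all_node (by decide +kernel)
  (all_node (by decide +kernel)
  (all_node (by decide +kernel)
  c56
  c57)
  (all_node (by decide +kernel)
  c58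
  c59))
  (all_node (by decide +kernel)
  (all_node (by decide +kernel)
  c60
  c61)
  (all_node (by decide +kernel)
  c62
  c63))))))
  (all_node (by decide +kernel)
  (all_node (by decide +kernel)
  (all_node (by decide +kernel)
  (all_node (by decide +kernel)
  (all_node (by decide +kernel)
  (all_node (by decide +kernel)
  c64
  c65)
  (all_node (by decide +kernel)
  c66
  c67))
  (all_node (by decide +kernel)
  (all_node (by decide +kernel)
  c68
  c69)
  (all_node (by decide +kernel)
  c70
  c71)))
  (all_node (by decide +kernel)
  (all_node (by decide +kernel)
  (all_node (by decide +kernel)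
  c72
  c73)
  (all_node (by decide +kernel)
  c74
  c75))
  (all_node (by decide +kernel)
  (all_node (by decide +kernel)
  c76
  c77)
  (all_node (by decide +kernel)
  c78
  c79))))
  (all_node (by decide +kernel)
  (all_node (by decide +kernel)
  (all_node (by decide +kernel)
  (all_node (by decide +kernel)
  c80
  c81)
  (all_node (by decide +kernel)
  c82
  c83))
  (all_node (by decide +kernel)
  (all_node (by decide +kernel)
  c84
  c85)
  (all_node (by decide +kernel)
  c86
  c87)))
  (all_node (by decide +kernel)
  (all_node (by decide +kernel)
  (all_node (by decide +kernel)
  c88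
  c89)
  (all_node (by decide +kernel)
  c90
  c91))
  (all_node (by decide +kernel)
  (all_node (by decide +kernel)
  c92
  c93)
  (all_node (by decide +kernel)
  c94
  c95)))))
  (all_node (by decide +kernel)
  (all_node (by decide +kernel)
  (all_node (by decide +kernel)
  (all_node (by decide +kernel)
  (all_node (by decide +kernel)
  c96
  c97)
  (all_node (by decide +kernel)
  c98
  c99))
  (all_node (by decide +kernel)
  (all_node (by decide +kernel)
  c100
  c101)
  (all_node (by decide +kernel)
  c102
  c103)))
  (all_node (by decide +kernel)
  (all_node (by decide +kernel)
  (all_node (by decide +kernel)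
  c104
  c105)
  (all_node (by decide +kernel)
  c106
  c107))
  (all_node (by decide +kernel)
  (all_node (by decide +kernel)
  c108
  c109)
  (all_node (by decide +kernel)
  c110
  c111))))
  (all_node (by decide +kernel)
  (all_node (by decide +kernel)
  (all_node (by decide +kernel)
  (all_node (by decide +kernel)
  c112
  c113)
  (all_node (by decide +kernel)
  c114
  c115))
  (all_node (by decide +kernel)
  (all_node (by decide +kernel)
  c116
  c117)
  (all_node (by decide +kernel)
  c118
  c119)))
  (all_node (by decide +kernel)
  (all_node (by decide +kernel)
  (all_node (by decide +kernel)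
  c120
  c121)
  (all_node (by decide +kernel)
  c122
  c123))
  (all_node (by decide +kernel)
  (all_node (by decide +kernel)
  c124
  c125)
  (all_node (by decide +kernel)
  c126
  c127)))))))

end Pool.Agent.V11199.TF
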