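import Pool.Agent.V11199.TF.Defs

/-!
# Certificates for Left winning as second player
-/

namespace Pool.Agent.V11199.TF

/-- A binary search tree of nodes (code, replies). -/
inductive Tree : Type
  | leaf : Tree
  | node (l : Tree) (key rep : ℕ) (r : Tree) : Tree

/-- search -/
noncomputable def Tree.mem (T : Tree) : ℕ → Bool :=
  Tree.rec (motive := fun _ => ℕ → Bool) (fun _ => false)
    (fun _ k _ _ ihl ihr c =>
      cond (Nat.beq c k) true (cond (Nat.ble c k) (ihl c) (ihr c))) T

/-- the code of a position: toads, frogs, number of free moves of Right -/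
def code (t f x : ℕ) : ℕ := x * 1099511627776 + f * 1048576 + t

/-- Left's recorded reply leads to a member -/
def good (mem : ℕ → Bool) (f x : ℕ) (o : Option ℕ) : Bool :=
  match o with
  | some t' => cond (Nat.ble t' 1048575) (mem (code t' f x)) false
  | none => false

/-- check a node: for each move of Right on square `i - 1, ..., 0` the recorded reply leads to a
member -/
noncomputable def checkR (mem : ℕ → Bool) (n t f x : ℕ) (i : ℕ) : ℕ → Bool :=
  Nat.rec (motive := fun _ => ℕ → Bool)
    (fun rep => cond (Nat.beq x 0) true
      (good mem f (x - 1) (leftMove n t f (rep % 32))))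
    (fun i ih rep =>
      match rightMove t f i with
      | none => ih rep
      | some f' => cond (good mem f' x (leftMove n t f' (rep % 32))) (ih (rep / 32)) false) i

/-- check all nodes of a tree -/
noncomputable def Tree.all (mem : ℕ → Bool) (n : ℕ) (T : Tree) : Bool :=
  Tree.rec (motive := fun _ => Bool) true
    (fun _ k rep _ ihl ihr =>
      cond (checkR mem n (k % 1048576) (k / 1048576 % 1048576) (k / 1099511627776) n rep)
        (cond ihl ihr false) false) T

theorem Tree.exists_of_mem (M : ℕ → Bool) (n : ℕ) (T : Tree) (hT : T.all M n = true) (c : ℕ)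
    (hc : T.mem c = true) :
    ∃ rep, checkR M n (c % 1048576) (c / 1048576 % 1048576) (c / 1099511627776) n rep = true := by
  induction T with
  | leaf => exact absurd hc (by simp [Tree.mem])
  | node l k rep r ihl ihr =>
    have h1 : cond (checkR M n (k % 1048576) (k / 1048576 % 1048576) (k / 1099511627776) n rep)
        (cond (l.all M n) (r.all M n) false) false = true := hT
    have h2 : cond (Nat.beq c k) true (cond (Nat.ble c k) (l.mem c) (r.mem c)) = true := hc
    have h3 : checkR M n (k % 1048576) (k / 1048576 % 1048576) (k / 1099511627776) n rep = true := by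
      revert h1
      cases checkR M n (k % 1048576) (k / 1048576 % 1048576) (k / 1099511627776) n rep <;> simp
    have h4 : l.all M n = true := by
      rw [h3] at h1; revert h1; cases l.all M n <;> simp
    have h5 : r.all M n = true := by
      rw [h3, h4] at h1; simpa using h1
    by_cases hck : c = k
    · subst hck; exact ⟨rep, h3⟩
    · have h6 : Nat.beq c k = false := by
        rw [← Bool.not_eq_true, Nat.beq_eq]; exact hck
      rw [h6] at h2
      cases h7 : Nat.ble c k with
      | true => rw [h7] at h2; exact ihl h4 (by simpa using h2)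
      | false => rw [h7] at h2; exact ihr h5 (by simpa using h2)

theorem leftMove_lt {n t f i t' : ℕ} (h : leftMove n t f i = some t') : i < n ∧ t < t' := by
  unfold leftMove at h
  split_ifs at h with h1 h2 h3
  · have := Nat.ge_two_pow_of_testBit h1
    simp only [Option.some.injEq] at h
    rw [pow_succ] at h
    have : 0 < 2 ^ i := by positivity
    omega
  · have := Nat.ge_two_pow_of_testBit h1
    simp only [Option.some.injEq] at h
    rw [pow_succ, pow_succ] at h
    have : 0 < 2 ^ i := by positivity
    omega

theorem rightMove_lt {t f i f' : ℕ} (h : rightMove t f i = some f') : f' < f := by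
  unfold rightMove at h
  split_ifs at h with h1 h2 h3
  · have := Nat.ge_two_pow_of_testBit h1
    simp only [Option.some.injEq] at h
    obtain ⟨j, rfl⟩ : ∃ j, i = j + 1 := ⟨i - 1, by omega⟩
    rw [pow_succ] at h this
    simp only [Nat.add_sub_cancel] at h
    have : 0 < 2 ^ j := by positivity
    omega
  · have := Nat.ge_two_pow_of_testBit h1
    simp only [Option.some.injEq] at h
    obtain ⟨j, rfl⟩ : ∃ j, i = j + 2 := ⟨i - 2, by omega⟩
    rw [pow_succ, pow_succ] at h this
    simp only [Nat.add_sub_cancel] at h
    have : 0 < 2 ^ j := by positivity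
    omega

theorem good_iff (M : ℕ → Bool) (f x : ℕ) (o : Option ℕ) (h : good M f x o = true) :
    ∃ t', o = some t' ∧ t' < 1048576 ∧ M (code t' f x) = true := by
  unfold good at h
  cases o with
  | none => simp at h
  | some t' =>
    refine ⟨t', rfl, ?_⟩
    cases h1 : Nat.ble t' 1048575 with
    | true =>
      simp only [h1, cond_true] at h
      exact ⟨by have := Nat.le_of_ble_eq_true h1; omega, h⟩
    | false => simp [h1] at h

theorem checkR_sound (M : ℕ → Bool) (n t f x : ℕ) (i rep : ℕ)
    (h : checkR M n t f x i rep = true) :
    (∀ j < i, ∀ f', rightMove t f j = some f' → ∃ k t', leftMove n t f' k = some t' ∧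
      t' < 1048576 ∧ M (code t' f' x) = true) ∧
    (x ≠ 0 → ∃ k t', leftMove n t f k = some t' ∧ t' < 1048576 ∧
      M (code t' f (x - 1)) = true) := by
  induction i generalizing rep with
  | zero =>
    refine ⟨fun j hj => absurd hj (by omega), fun hx => ?_⟩
    have h1 : cond (Nat.beq x 0) true (good M f (x - 1) (leftMove n t f (rep % 32))) = true := h
    have h2 : Nat.beq x 0 = false := by
      rw [← Bool.not_eq_true, Nat.beq_eq]; exact hx
    rw [h2] at h1
    obtain ⟨t', ht⟩ := good_iff M f (x - 1) _ h1
    exact ⟨_, t', ht⟩
  | succ i ih =>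
    have h1 : (match rightMove t f i with
      | none => checkR M n t f x i rep
      | some f' => cond (good M f' x (leftMove n t f' (rep % 32)))
          (checkR M n t f x i (rep / 32)) false) = true := h
    cases hr : rightMove t f i with
    | none =>
      rw [hr] at h1
      obtain ⟨h3, h4⟩ := ih rep h1
      refine ⟨fun j hj f' hf' => ?_, h4⟩
      rcases Nat.lt_succ_iff_lt_or_eq.mp hj with h5 | h5
      · exact h3 j h5 f' hf'
      · subst h5; rw [hr] at hf'; cases hf'
    | some g =>
      rw [hr] at h1
      have h6 : good M g x (leftMove n t g (rep % 32)) = true := by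
        cases hg : good M g x (leftMove n t g (rep % 32)) with
        | true => rfl
        | false => simp only [hg, cond_false] at h1; exact h1
      have h7 : checkR M n t f x i (rep / 32) = true := by
        simp only [h6, cond_true] at h1; exact h1
      obtain ⟨h3, h4⟩ := ih _ h7
      refine ⟨fun j hj f' hf' => ?_, h4⟩
      rcases Nat.lt_succ_iff_lt_or_eq.mp hj with h5 | h5
      · exact h3 j h5 f' hf'
      · subst h5; rw [hr] at hf'; cases hf'
        obtain ⟨t', ht⟩ := good_iff M g x _ h6
        exact ⟨_, t', ht⟩

/-- the second component of the position -/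
def sm (x : ℕ) : SmallPos := if x = 0 then SmallPos.zero else SmallPos.one

theorem mem_leftMoves (n t f i t' : ℕ) (h : leftMove n t f i = some t') (s : SmallPos) :
    ((t', f), s) ∈ ((ToadsFrogs n).sum Small.neg).moves true ((t, f), s) := by
  refine List.mem_append_left _ (List.mem_map.mpr ⟨(t', f), ?_, rfl⟩)
  refine List.mem_map.mpr ⟨t', List.mem_filterMap.mpr ⟨i, ?_, h⟩, rfl⟩
  exact List.mem_range.mpr (leftMove_lt h).1

theorem rightMove_some_lt {t f i f' n : ℕ} (hf : f < 2 ^ n) (h : rightMove t f i = some f') :
    i < n := by
  unfold rightMove at h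
  split_ifs at h with h1 <;>
  exact (Nat.pow_lt_pow_iff_right (by norm_num : 1 < 2)).mp
    ((Nat.ge_two_pow_of_testBit h1).trans_lt hf)

theorem sound (M : ℕ → Bool)
    (hM : ∀ c, M c = true → ∃ rep,
      checkR M 20 (c % 1048576) (c / 1048576 % 1048576) (c / 1099511627776) 20 rep = true) :
    ∀ m t f x : ℕ, 1048576 - t ≤ m → t < 1048576 → f < 1048576 → x ≤ 1 →
      M (code t f x) = true →
      WinsSecond ((ToadsFrogs 20).sum Small.neg) true ((t, f), sm x) := by
  intro m
  induction m with
  | zero => intro t f x h1 h2; omega
  | succ m ih =>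
    intro t f x hm ht hf hx hmem
    obtain ⟨rep, hrep⟩ := hM _ hmem
    have e1 : code t f x % 1048576 = t := by unfold code; omega
    have e2 : code t f x / 1048576 % 1048576 = f := by unfold code; omega
    have e3 : code t f x / 1099511627776 = x := by unfold code; omega
    rw [e1, e2, e3] at hrep
    obtain ⟨hA, hB⟩ := checkR_sound M 20 t f x 20 rep hrep
    have key : ∀ q ∈ ((ToadsFrogs 20).sum Small.neg).moves (!true) ((t, f), sm x),
        ∃ q' ∈ ((ToadsFrogs 20).sum Small.neg).moves true q,
          WinsSecond ((ToadsFrogs 20).sum Small.neg) true q' := by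
      intro q hq
      rcases List.mem_append.mp hq with hq | hq
      · obtain ⟨q1, hq1, rfl⟩ := List.mem_map.mp hq
        have hq1' : q1 ∈ ((List.range 20).filterMap (rightMove t f)).map fun f' => (t, f') := hq1
        obtain ⟨f', hf', rfl⟩ := List.mem_map.mp hq1'
        obtain ⟨j, hj, hjf⟩ := List.mem_filterMap.mp hf'
        obtain ⟨k, t', hk, ht', hmem'⟩ := hA j (List.mem_range.mp hj) f' hjf
        refine ⟨((t', f'), sm x), mem_leftMoves 20 t f' k t' hk _, ?_⟩
        have := (leftMove_lt hk).2
        have := rightMove_lt hjf
        exact ih t' f' x (by omega) ht' (by omega) hx hmem'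
      · obtain ⟨s, hs, rfl⟩ := List.mem_map.mp hq
        have hx0 : x ≠ 0 := by
          rintro rfl
          have h0 : s ∈ ([] : List Small.neg.Pos) := hs
          exact (List.not_mem_nil h0).elim
        have hx1 : x = 1 := by omega
        subst hx1
        have hs' : s = SmallPos.zero := List.mem_singleton.mp hs
        subst hs'
        obtain ⟨k, t', hk, ht', hmem'⟩ := hB hx0
        refine ⟨((t', f), SmallPos.zero), mem_leftMoves 20 t f k t' hk _, ?_⟩
        have := (leftMove_lt hk).2
        exact ih t' f 0 (by omega) ht' hf (by omega) hmem'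
    choose reply h1 h2 using key
    exact WinsSecond.intro _ reply h1 h2

end Pool.Agent.V11199.TF
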