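import Pool.Agent.V11199.TF.Top

/-! Kernel check of the certificate. -/

set_option maxRecDepth 100000

namespace Pool.Agent.V11199.TF

theorem c0 : s0.all M 20 = true := by decide +kernel
theorem c1 : s1.all M 20 = true := by decide +kernel
theorem c2 : s2.all M 20 = true := by decide +kernel
theorem c3 : s3.all M 20 = true := by decide +kernel
theorem c4 : s4.all M 20 = true := by decide +kernel
theorem c5 : s5.all M 20 = true := by decide +kernel
theorem c6 : s6.all M 20 = true := by decide +kernel
theorem c7 : s7.all M 20 = true := by decide +kernel
theorem c8 : s8.all M 20 = true := by decide +kernel
theorem c9 : s9.all M 20 = true := by decide +kernel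
theorem c10 : s10.all M 20 = true := by decide +kernel
theorem c11 : s11.all M 20 = true := by decide +kernel
theorem c12 : s12.all M 20 = true := by decide +kernel
theorem c13 : s13.all M 20 = true := by decide +kernel
theorem c14 : s14.all M 20 = true := by decide +kernel
theorem c15 : s15.all M 20 = true := by decide +kernel
theorem c16 : s16.all M 20 = true := by decide +kernel
theorem c17 : s17.all M 20 = true := by decide +kernel
theorem c18 : s18.all M 20 = true := by decide +kernel
theorem c19 : s19.all M 20 = true := by decide +kernel
theorem c20 : s20.all M 20 = true := by decide +kernel
theorem c21 : s21.all M 20 = true := by decide +kernel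
theorem c22 : s22.all M 20 = true := by decide +kernel
theorem c23 : s23.all M 20 = true := by decide +kernel
theorem c24 : s24.all M 20 = true := by decide +kernel
theorem c25 : s25.all M 20 = true := by decide +kernel
theorem c26 : s26.all M 20 = true := by decide +kernel
theorem c27 : s27.all M 20 = true := by decide +kernel
theorem c28 : s28.all M 20 = true := by decide +kernel
theorem c29 : s29.all M 20 = true := by decide +kernel
theorem c30 : s30.all M 20 = true := by decide +kernel
theorem c31 : s31.all M 20 = true := by decide +kernel
theorem c32 : s32.all M 20 = true := by decide +kernel
theorem c33 : s33.all M 20 = true := by decide +kernel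
theorem c34 : s34.all M 20 = true := by decide +kernel
theorem c35 : s35.all M 20 = true := by decide +kernel
theorem c36 : s36.all M 20 = true := by decide +kernel
theorem c37 : s37.all M 20 = true := by decide +kernel
theorem c38 : s38.all M 20 = true := by decide +kernel
theorem c39 : s39.all M 20 = true := by decide +kernel
theorem c40 : s40.all M 20 = true := by decide +kernel
theorem c41 : s41.all M 20 = true := by decide +kernel
theorem c42 : s42.all M 20 = true := by decide +kernel
theorem c43 : s43.all M 20 = true := by decide +kernel
theorem c44 : s44.all M 20 = true := by decide +kernel
theorem c45 : s45.all M 20 = true := by decide +kernel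
theorem c46 : s46.all M 20 = true := by decide +kernel
theorem c47 : s47.all M 20 = true := by decide +kernel
theorem c48 : s48.all M 20 = true := by decide +kernel
theorem c49 : s49.all M 20 = true := by decide +kernel
theorem c50 : s50.all M 20 = true := by decide +kernel
theorem c51 : s51.all M 20 = true := by decide +kernel
theorem c52 : s52.all M 20 = true := by decide +kernel
theorem c53 : s53.all M 20 = true := by decide +kernel
theorem c54 : s54.all M 20 = true := by decide +kernel
theorem c55 : s55.all M 20 = true := by decide +kernel
theorem c56 : s56.all M 20 = true := by decide +kernel
theorem c57 : s57.all M 20 = true := by decide +kernel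
theorem c58 : s58.all M 20 = true := by decide +kernel
theorem c59 : s59.all M 20 = true := by decide +kernel
theorem c60 : s60.all M 20 = true := by decide +kernel
theorem c61 : s61.all M 20 = true := by decide +kernel
theorem c62 : s62.all M 20 = true := by decide +kernel
theorem c63 : s63.all M 20 = true := by decide +kernel

end Pool.Agent.V11199.TF
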