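import Mathlib

/-!
# Toads and Frogs: rules, disjunctive sums, equality of values

Positions of partizan games are given by rule sets.  Two positions have the same value when their
difference is a win for the second player.
-/

namespace Pool.Agent.V11199.TF

/-- A rule set: the positions and the moves of the two players (`true` is Left, `false` is
Right). -/
structure Ruleset : Type 1 where
  /-- positions -/
  Pos : Type
  /-- the options of a player -/
  moves : Bool → Pos → List Pos

/-- The disjunctive sum: a move is a move in exactly one of the two components. -/
def Ruleset.sum (A B : Ruleset) : Ruleset where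
  Pos := A.Pos × B.Pos
  moves b p := (A.moves b p.1).map (fun q => (q, p.2)) ++ (B.moves b p.2).map (fun q => (p.1, q))

/-- The negative: the players exchange their moves. -/
def Ruleset.neg (A : Ruleset) : Ruleset where
  Pos := A.Pos
  moves b := A.moves (!b)

/-- Player `b` wins from the position `p` when the opponent moves first, under normal play: every
move of the opponent can be answered by a move of `b` after which `b` again wins moving second.
(All games considered are finite.) -/
inductive WinsSecond (A : Ruleset) (b : Bool) : A.Pos → Prop
  | intro (p : A.Pos) (reply : ∀ q ∈ A.moves (!b) p, A.Pos)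
      (legal : ∀ (q : A.Pos) (h : q ∈ A.moves (!b) p), reply q h ∈ A.moves b q)
      (win : ∀ (q : A.Pos) (h : q ∈ A.moves (!b) p), WinsSecond A b (reply q h)) :
      WinsSecond A b p

/-- The positions `p` and `q` have equal values: the difference `p - q` is a win for the player
moving second, whoever that is. -/
def SameValue (A B : Ruleset) (p : A.Pos) (q : B.Pos) : Prop :=
  WinsSecond (A.sum B.neg) true (p, q) ∧ WinsSecond (A.sum B.neg) false (p, q)

/-- Four small games: `0`, `* = {0 | 0}`, `1 = {0 | }` and `1* = {1 | 1}`. -/
inductive SmallPos : Type
  | zero | star | one | oneStar

/-- The moves in the four small games. -/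
def Small : Ruleset where
  Pos := SmallPos
  moves
    | _, SmallPos.zero => []
    | _, SmallPos.star => [SmallPos.zero]
    | true, SmallPos.one => [SmallPos.zero]
    | false, SmallPos.one => []
    | _, SmallPos.oneStar => [SmallPos.one]

/-- Left moves the toad on square `i` in the strip with squares `0, ..., n-1`.  The binary digits
of `t` and `f` mark the squares with toads and frogs.  The toad moves to the empty square `i + 1`,
or jumps over a frog on square `i + 1` to the empty square `i + 2`; the value is the new set of
toads, and `none` if the toad cannot move. -/
def leftMove (n t f i : ℕ) : Option ℕ :=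
  if t.testBit i then
    if i + 1 < n ∧ t.testBit (i + 1) = false ∧ f.testBit (i + 1) = false then
      some (t - 2 ^ i + 2 ^ (i + 1))
    else if i + 2 < n ∧ f.testBit (i + 1) = true ∧ t.testBit (i + 2) = false ∧
        f.testBit (i + 2) = false then
      some (t - 2 ^ i + 2 ^ (i + 2))
    else none
  else none

/-- Right moves the frog on square `i`: to the empty square `i - 1`, or over a toad on square
`i - 1` to the empty square `i - 2`; the value is the new set of frogs. -/
def rightMove (t f i : ℕ) : Option ℕ :=
  if f.testBit i then
    if 1 ≤ i ∧ t.testBit (i - 1) = false ∧ f.testBit (i - 1) = false then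
      some (f - 2 ^ i + 2 ^ (i - 1))
    else if 2 ≤ i ∧ t.testBit (i - 1) = true ∧ t.testBit (i - 2) = false ∧
        f.testBit (i - 2) = false then
      some (f - 2 ^ i + 2 ^ (i - 2))
    else none
  else none

/-- Toads and Frogs on a strip of `n` squares; a position is the pair of the sets of squares
occupied by toads and by frogs, written in binary. -/
def ToadsFrogs (n : ℕ) : Ruleset where
  Pos := ℕ × ℕ
  moves
    | true, (t, f) => ((List.range n).filterMap (leftMove n t f)).map fun t' => (t', f)
    | false, (t, f) => ((List.range n).filterMap (rightMove t f)).map fun f' => (t, f')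

/-- The position `T^a □^a F^(a-1)` on the strip of `3a - 1` squares: toads on the squares
`0, ..., a-1`, frogs on the squares `2a, ..., 3a-2`. -/
def start (a : ℕ) : ℕ × ℕ := (2 ^ a - 1, (2 ^ (a - 1) - 1) * 2 ^ (2 * a))

/-! ## Determinacy -/

theorem not_winsSecond_of_winsSecond (A : Ruleset) (b : Bool) (p : A.Pos)
    (h : WinsSecond A b p) : ∀ q ∈ A.moves (!b) p, ¬ WinsSecond A (!b) q := by
  induction h with
  | intro p reply legal win ih =>
    intro q hq hw
    cases hw with
    | intro _ reply' legal' win' =>
      have h1 : reply q hq ∈ A.moves (!(!b)) q := by
        rw [Bool.not_not]; exact legal q hq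
      exact ih q hq _ (legal' _ h1) (win' _ h1)

end Pool.Agent.V11199.TF
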